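import Pool.Agent.Lib.MP_15511a_al.SD
import Pool.Agent.Lib.MP_15511a_al.Defs

/-!
The ring of operators on `γ_{c+1}(G)`, `G = F_n(A N_c)`, and crossed homomorphisms from G to it.
-/

open scoped commutatorElement

namespace MP15511a

variable (c n : ℕ)

/-- `γ_{c+1}(G)` -/
abbrev AA : Subgroup (FreeAN c n) := (⊤ : Subgroup (FreeAN c n)).lowerCentralSeries c

theorem AA_comm (a b : AA c n) : a * b = b * a := by
  have h1 : ⁅(a : FreeAN c n), (b : FreeAN c n)⁆ ∈ ⁅AA c n, AA c n⁆ :=
    Subgroup.commutator_mem_commutator a.2 b.2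
  have h2 : ⁅AA c n, AA c n⁆ = ⊥ := inAN_free c n
  rw [h2, Subgroup.mem_bot] at h1
  exact Subtype.ext (commutatorElement_eq_one_iff_mul_comm.1 h1)

instance : CommGroup (AA c n) :=
  { (inferInstance : Group (AA c n)) with mul_comm := AA_comm c n }

/-- the abelian group -/
abbrev VV : Type := Additive (AA c n)

variable {c n}

/-- the underlying element of G -/
def vl (v : VV c n) : FreeAN c n := ((Additive.toMul v : AA c n) : FreeAN c n)

/-- an element of the abelian group -/
def mkV (a : FreeAN c n) (ha : a ∈ AA c n) : VV c n := Additive.ofMul ⟨a, ha⟩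

theorem vl_mk (a : FreeAN c n) (ha : a ∈ AA c n) : vl (mkV a ha) = a := rfl
theorem vl_mem (v : VV c n) : vl v ∈ AA c n := (Additive.toMul v : AA c n).2
theorem vl_add (v w : VV c n) : vl (v + w) = vl v * vl w := rfl
theorem vl_zero : vl (0 : VV c n) = 1 := rfl
theorem vl_neg (v : VV c n) : vl (-v) = (vl v)⁻¹ := rfl
theorem vl_inj {v w : VV c n} (h : vl v = vl w) : v = w :=
  Additive.toMul.injective (Subtype.ext h)

variable (c n)

/-- conjugation -/
def Tc : FreeAN c n →* AddMonoid.End (VV c n) where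
  toFun g :=
    { toFun := fun v => mkV (g * vl v * g⁻¹) ((inferInstance : (AA c n).Normal).conj_mem _
        (vl_mem v) g)
      map_zero' := vl_inj (by rw [vl_mk, vl_zero]; group)
      map_add' := fun v w => vl_inj (by rw [vl_mk, vl_add, vl_add, vl_mk, vl_mk]; group) }
  map_one' := by
    ext v
    change (1 * vl v * 1⁻¹ : FreeAN c n) = vl v
    group
  map_mul' := by
    intro g h
    ext v
    change (g * h * vl v * (g * h)⁻¹ : FreeAN c n) = g * (h * vl v * h⁻¹) * g⁻¹
    group

theorem vl_Tc (g : FreeAN c n) (v : VV c n) : vl (Tc c n g v) = g * vl v * g⁻¹ := rfl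

theorem Tc_triv (a : FreeAN c n) (ha : a ∈ AA c n) : Tc c n a = 1 := by
  ext v
  change a * vl v * a⁻¹ = vl v
  have h1 := congrArg Subtype.val (AA_comm c n ⟨a, ha⟩ (Additive.toMul v))
  change a * vl v = vl v * a at h1
  rw [h1, mul_inv_cancel_right]

/-- the subring of operators -/
def EE : Subring (AddMonoid.End (VV c n)) := Subring.closure (Set.range (Tc c n))

/-- the action -/
def Te : FreeAN c n →* EE c n :=
  (Tc c n).codRestrict (EE c n) (fun g => Subring.subset_closure ⟨g, rfl⟩)

theorem Te_val (g : FreeAN c n) : ((Te c n g : EE c n) : AddMonoid.End (VV c n)) = Tc c n g := rfl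

theorem Te_triv (a : FreeAN c n) (ha : a ∈ AA c n) : Te c n a = 1 :=
  Subtype.ext (Tc_triv c n a ha)

instance : DistribMulAction (FreeAN c n) (EE c n) :=
  DistribMulAction.compHom (EE c n) (Te c n)

theorem smul_def' (g : FreeAN c n) (e : EE c n) : g • e = Te c n g * e := rfl

theorem EE_ind {P : EE c n → Prop} (hT : ∀ g, P (Te c n g)) (h1 : P 1) (h0 : P 0)
    (ha : ∀ a b, P a → P b → P (a + b)) (hm : ∀ a b, P a → P b → P (a * b))
    (hn : ∀ a, P a → P (-a)) (e : EE c n) : P e := by
  obtain ⟨e, he⟩ := e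
  induction he using Subring.closure_induction with
  | mem x hx =>
    obtain ⟨g, rfl⟩ := hx
    exact hT g
  | zero => exact h0
  | one => exact h1
  | add x y hx hy h h' => exact ha _ _ h h'
  | neg x hx h => exact hn _ h
  | mul x y hx hy h h' => exact hm _ _ h h'

theorem inAN_SD : InAN c (SD (EE c n) (FreeAN c n)) := by
  have h1 : ∀ a ∈ (⊤ : Subgroup (SD (EE c n) (FreeAN c n))).lowerCentralSeries c,
      a.g ∈ AA c n := by
    intro a ha
    have h3 : a.g ∈ ((⊤ : Subgroup (SD (EE c n) (FreeAN c n))).lowerCentralSeries c).map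
      (SD.pr : SD (EE c n) (FreeAN c n) →* _) := ⟨a, ha, rfl⟩
    rw [Subgroup.map_lowerCentralSeries] at h3
    exact Subgroup.lowerCentralSeries_mono c le_top h3
  rw [InAN, Subgroup.commutator_eq_bot_iff_le_centralizer]
  intro a ha b hb
  rw [← commutatorElement_eq_one_iff_mul_comm]
  have ta : ∀ u : EE c n, a.g • u = u := by
    intro u; rw [smul_def', Te_triv c n _ (h1 a ha), one_mul]
  have tb : ∀ u : EE c n, b.g • u = u := by
    intro u; rw [smul_def', Te_triv c n _ (h1 b hb), one_mul]
  have ti : ∀ u : EE c n, b.g⁻¹ • u = u := by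
    intro u; rw [inv_smul_eq_iff, tb]
  have hab : ⁅b.g, a.g⁆ = 1 := by
    rw [commutatorElement_eq_one_iff_mul_comm]
    exact congrArg Subtype.val (AA_comm c n ⟨_, h1 b hb⟩ ⟨_, h1 a ha⟩)
  apply SD.ext
  · rw [SD.comm_v, hab, one_smul, tb, mul_smul, mul_smul, ti, ta, tb]
    simp
  · rw [SD.comm_g, hab]
    rfl

end MP15511a
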