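import Pool.Agent.Lib.MP_15511a_al.Stab.Core

/-!
If v and `[ρ_k, ζ_k] ⋯ [ρ_1, ζ_1] v` are unimodular and there are k unused generators then the two
elements are equivalent under an automorphism.
-/

open scoped commutatorElement

namespace MP15511a

variable {c n : ℕ}

/-- equivalence under an automorphism which does not change the action on `γ_{c+1}` -/
def AutEq (u v : FreeAN c n) : Prop :=
  ∃ Φ Ψ : FreeAN c n →* FreeAN c n, (∀ g, Φ (Ψ g) = g) ∧ (∀ g, Ψ (Φ g) = g) ∧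
    (∀ g, Te c n (Φ g) = Te c n g) ∧ Φ u = v

theorem AutEq.symm {u v : FreeAN c n} (h : AutEq u v) : AutEq v u := by
  obtain ⟨Φ, Ψ, h1, h2, h3, rfl⟩ := h
  refine ⟨Ψ, Φ, h2, h1, ?_, h2 u⟩
  intro g
  rw [← h3 (Ψ g), h1]

theorem AutEq.trans {u v w : FreeAN c n} (h : AutEq u v) (h' : AutEq v w) : AutEq u w := by
  obtain ⟨Φ, Ψ, h1, h2, h3, rfl⟩ := h
  obtain ⟨Φ', Ψ', h1', h2', h3', rfl⟩ := h'
  refine ⟨Φ'.comp Φ, Ψ.comp Ψ', ?_, ?_, ?_, rfl⟩
  · intro g
    rw [MonoidHom.comp_apply, MonoidHom.comp_apply, h1, h1']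
  · intro g
    rw [MonoidHom.comp_apply, MonoidHom.comp_apply, h2', h2]
  · intro g
    rw [MonoidHom.comp_apply, h3', h3]

/-- unimodular elements -/
def UM (v : FreeAN c n) : Prop := ∃ f : FreeAN c n → EE c n, Crossed f ∧ f v = 1

theorem AutEq.um {u v : FreeAN c n} (h : AutEq u v) (hu : UM u) : UM v := by
  obtain ⟨Φ, Ψ, h1, h2, h3, rfl⟩ := h
  obtain ⟨f, hf, hfu⟩ := hu
  refine ⟨fun g => f (Ψ g), ?_, ?_⟩
  · intro g k
    have h4 : Te c n (Ψ g) = Te c n g := by rw [← h3 (Ψ g), h1]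
    change f (Ψ (g * k)) = f (Ψ g) + Te c n g * f (Ψ k)
    rw [map_mul, hf, h4]
  · change f (Ψ (Φ u)) = 1
    rw [h2, hfu]

theorem delta_comm (ζ : FreeAN c n) (hζ : ∀ g : FreeAN c n, ⁅g, ζ⁆ ∈ AA c n) (e : EE c n) :
    (1 - Te c n ζ) * e = e * (1 - Te c n ζ) := by
  rw [sub_mul, mul_sub, one_mul, mul_one, Te_comm ζ hζ]

/-- one move -/
theorem move (t : Fin n) (ζ v : FreeAN c n) (ρV : VV c n)
    (hζ : ∀ g : FreeAN c n, ⁅g, ζ⁆ ∈ AA c n)
    (hρH : vl ρV ∈ Subgroup.closure (gen c '' {j : Fin n | j ≠ t}))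
    (hζH : ζ ∈ Subgroup.closure (gen c '' {j : Fin n | j ≠ t}))
    (hvH : v ∈ Subgroup.closure (gen c '' {j : Fin n | j ≠ t})) (hv : UM v) :
    AutEq v (vl ((1 - Te c n ζ : EE c n).1 (mkV ⁅gen c t, ζ⁆ (hζ _) + ρV)) * v) := by
  classical
  obtain ⟨e, hec, hev⟩ := hv
  set H := Subgroup.closure (gen c '' {j : Fin n | j ≠ t}) with hH
  set δ : EE c n := 1 - Te c n ζ with hδ
  have hδc : ∀ e : EE c n, δ * e = e * δ := delta_comm ζ hζ
  set θ : VV c n := mkV ⁅gen c t, ζ⁆ (hζ _) with hθ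
  set β : EE c n := -(e (vl ρV) + (Te c n (gen c t) - 1) * e ζ) with hβ
  set b1 : Fin n → EE c n := fun j => if j = t then β else e (gen c j) * δ with hb1
  have f1c : Crossed (Dc b1) := Dc_crossed _
  have f1H : ∀ g ∈ H, Dc b1 g = e g * δ := by
    apply f1c.eqOn (hec.mul_right δ)
    rintro _ ⟨j, hj, rfl⟩
    rw [Dc_gen, hb1]
    exact if_neg hj
  have f1t : Dc b1 (gen c t) = β := by
    rw [Dc_gen, hb1]
    exact if_pos rfl
  have f1σ : Dc b1 (vl (θ + ρV)) = 0 := by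
    rw [f1c.vladd, hθ, vl_mk, comm_zeta ζ hζ f1c, f1H _ hρH, f1H ζ hζH, f1t,
      ← hδ, hδc β, hβ]
    noncomm_ring
  refine ⟨alpha (Dc b1) f1c (θ + ρV), alpha (fun g => - Dc b1 g) f1c.neg (θ + ρV),
    alpha_inv _ f1c _ f1σ, alpha_inv' _ f1c _ f1σ, ?_, ?_⟩
  · intro g
    rw [alpha_apply, map_mul, Te_triv c n _ (vl_mem _), one_mul]
  · rw [alpha_apply, f1H v hvH, hev, one_mul]

/-- unimodularity is kept -/
theorem um_keep (t : Fin n) (ζ v : FreeAN c n)
    (hζ : ∀ g : FreeAN c n, ⁅g, ζ⁆ ∈ AA c n)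
    (hζH : ζ ∈ Subgroup.closure (gen c '' {j : Fin n | j ≠ t}))
    (hvH : v ∈ Subgroup.closure (gen c '' {j : Fin n | j ≠ t})) (hv : UM v) :
    UM (vl ((1 - Te c n ζ : EE c n).1 (mkV ⁅gen c t, ζ⁆ (hζ _))) * v) := by
  classical
  obtain ⟨e, hec, hev⟩ := hv
  set H := Subgroup.closure (gen c '' {j : Fin n | j ≠ t}) with hH
  set δ : EE c n := 1 - Te c n ζ with hδ
  have hδc : ∀ e : EE c n, δ * e = e * δ := delta_comm ζ hζ
  set θ : VV c n := mkV ⁅gen c t, ζ⁆ (hζ _) with hθ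
  set s : EE c n := (Te c n (gen c t) - 1) * e ζ with hs
  set b : Fin n → EE c n := fun j => if j = t then s * s else e (gen c j) * (1 - δ * s) with hb
  have fc : Crossed (Dc b) := Dc_crossed _
  have fH : ∀ g ∈ H, Dc b g = e g * (1 - δ * s) := by
    apply fc.eqOn (hec.mul_right (1 - δ * s))
    rintro _ ⟨j, hj, rfl⟩
    rw [Dc_gen, hb]
    exact if_neg hj
  have ft : Dc b (gen c t) = s * s := by
    rw [Dc_gen, hb]
    exact if_pos rfl
  refine ⟨Dc b, fc, ?_⟩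
  rw [fc.triv_mul (vl_mem _), fc.vlE, hθ, vl_mk, comm_zeta ζ hζ fc, fH ζ hζH, fH v hvH, ft, hev,
    ← hδ]
  have h1 : (Te c n (gen c t) - 1) * (e ζ * (1 - δ * s)) = s * (1 - δ * s) := by
    rw [hs]; noncomm_ring
  have h2 : s * (δ * s) = δ * (s * s) := by rw [← mul_assoc, ← hδc, mul_assoc]
  rw [h1, mul_sub, mul_one, h2]
  noncomm_ring

/-- product of commutators -/
def cprod (L : List (FreeAN c n × FreeAN c n × Fin n)) : FreeAN c n :=
  (L.map (fun p => ⁅p.1, p.2.1⁆)).prod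

theorem chain (B : Set (Fin n)) : ∀ (L : List (FreeAN c n × FreeAN c n × Fin n))
    (C : Set (Fin n)) (v : FreeAN c n), B ⊆ C → v ∈ Subgroup.closure (gen c '' C) →
    (∀ p ∈ L, p.1 ∈ AA c n ∧ (∀ g : FreeAN c n, ⁅g, p.2.1⁆ ∈ AA c n) ∧
      p.1 ∈ Subgroup.closure (gen c '' B) ∧ p.2.1 ∈ Subgroup.closure (gen c '' B) ∧ p.2.2 ∉ C) →
    (L.map (fun p => p.2.2)).Nodup → UM v → UM (cprod L * v) → AutEq v (cprod L * v) := by
  intro L
  induction L with
  | nil =>
    intro C v _ _ _ _ _ _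
    refine ⟨MonoidHom.id _, MonoidHom.id _, fun _ => rfl, fun _ => rfl, fun _ => rfl, ?_⟩
    simp [cprod]
  | cons p L ih =>
    intro C v hBC hv hp hnd hu hw
    obtain ⟨ρ, ζ, t⟩ := p
    obtain ⟨hρ, hζ, hρB, hζB, htC⟩ := hp (ρ, ζ, t) (List.mem_cons_self)
    change ρ ∈ AA c n at hρ
    change ∀ g : FreeAN c n, ⁅g, ζ⁆ ∈ AA c n at hζ
    change ρ ∈ _ at hρB
    change ζ ∈ _ at hζB
    change t ∉ C at htC
    have hCt : C ⊆ {j : Fin n | j ≠ t} := by
      intro j hj h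
      exact htC (h ▸ hj)
    have hcl : Subgroup.closure (gen c '' C) ≤ Subgroup.closure (gen c '' {j : Fin n | j ≠ t}) :=
      Subgroup.closure_mono (Set.image_mono hCt)
    have hclB : Subgroup.closure (gen c '' B) ≤ Subgroup.closure (gen c '' C) :=
      Subgroup.closure_mono (Set.image_mono hBC)
    have hLA : cprod L ∈ AA c n := by
      rw [cprod]
      apply Subgroup.list_prod_mem
      intro x hx
      obtain ⟨q, hq, rfl⟩ := List.mem_map.1 hx
      have h1 := (hp q (List.mem_cons_of_mem _ hq)).2.1 q.1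
      exact h1
    have hLC : cprod L ∈ Subgroup.closure (gen c '' C) := by
      rw [cprod]
      apply Subgroup.list_prod_mem
      intro x hx
      obtain ⟨q, hq, rfl⟩ := List.mem_map.1 hx
      obtain ⟨_, _, h3, h4, _⟩ := hp q (List.mem_cons_of_mem _ hq)
      have h5 := hclB h3
      have h6 := hclB h4
      rw [commutatorElement_def]
      exact Subgroup.mul_mem _ (Subgroup.mul_mem _ (Subgroup.mul_mem _ h5 h6)
        (Subgroup.inv_mem _ h5)) (Subgroup.inv_mem _ h6)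
    set δ : EE c n := 1 - Te c n ζ with hδ
    set θ : VV c n := mkV ⁅gen c t, ζ⁆ (hζ _) with hθ
    set ρV : VV c n := mkV ρ hρ with hρV
    set w : FreeAN c n := cprod ((ρ, ζ, t) :: L) * v with hw'
    have hwd : w = ⁅ρ, ζ⁆ * (cprod L * v) := by
      rw [hw', cprod, List.map_cons, List.prod_cons, mul_assoc]
      rfl
    have hδρ : vl (δ.1 ρV) = ⁅ρ, ζ⁆ := vl_delta ζ ρV
    have hρζC : ⁅ρ, ζ⁆ ∈ Subgroup.closure (gen c '' C) := by
      have h5 := hclB hρB
      have h6 := hclB hζB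
      rw [commutatorElement_def]
      exact Subgroup.mul_mem _ (Subgroup.mul_mem _ (Subgroup.mul_mem _ h5 h6)
        (Subgroup.inv_mem _ h5)) (Subgroup.inv_mem _ h6)
    have hwC : w ∈ Subgroup.closure (gen c '' C) := by
      rw [hwd]
      exact Subgroup.mul_mem _ hρζC (Subgroup.mul_mem _ hLC hv)
    set v1 : FreeAN c n := vl (δ.1 (θ + ρV)) * v with hv1
    have e1 : AutEq v v1 := move t ζ v ρV hζ (hcl (hclB hρB)) (hcl (hclB hζB)) (hcl hv) hu
    have hLv1 : cprod L * v1 = vl (δ.1 θ) * w := by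
      have h1 := congrArg Subtype.val (AA_comm c n ⟨cprod L, hLA⟩
        ⟨vl (δ.1 (θ + ρV)), vl_mem _⟩)
      change cprod L * vl (δ.1 (θ + ρV)) = vl (δ.1 (θ + ρV)) * cprod L at h1
      rw [hv1, ← mul_assoc, h1, map_add, vl_add, hδρ, hwd]
      group
    have e2 : AutEq w (vl (δ.1 θ) * w) := by
      have h1 := move t ζ w 0 hζ (by rw [vl_zero]; exact Subgroup.one_mem _)
        (hcl (hclB hζB)) (hcl hwC) hw
      rwa [add_zero] at h1
    have e3 : AutEq v1 (cprod L * v1) := by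
      apply ih (insert t C) v1 (hBC.trans (Set.subset_insert _ _))
      · have hmono : Subgroup.closure (gen c '' C) ≤ Subgroup.closure (gen c '' (insert t C)) :=
          Subgroup.closure_mono (Set.image_mono (Set.subset_insert _ _))
        have ht : gen c t ∈ Subgroup.closure (gen c '' (insert t C)) :=
          Subgroup.subset_closure ⟨t, Set.mem_insert _ _, rfl⟩
        have hz := hmono (hclB hζB)
        rw [hv1, map_add, vl_add, hδρ, show vl (δ.1 θ) = ⁅⁅gen c t, ζ⁆, ζ⁆ from vl_delta ζ θ]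
        have hk : ⁅gen c t, ζ⁆ ∈ Subgroup.closure (gen c '' (insert t C)) := by
          rw [commutatorElement_def]
          exact Subgroup.mul_mem _ (Subgroup.mul_mem _ (Subgroup.mul_mem _ ht hz)
            (Subgroup.inv_mem _ ht)) (Subgroup.inv_mem _ hz)
        have hk2 : ⁅⁅gen c t, ζ⁆, ζ⁆ ∈ Subgroup.closure (gen c '' (insert t C)) := by
          rw [commutatorElement_def ⁅gen c t, ζ⁆ ζ]
          exact Subgroup.mul_mem _ (Subgroup.mul_mem _ (Subgroup.mul_mem _ hk hz)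
            (Subgroup.inv_mem _ hk)) (Subgroup.inv_mem _ hz)
        exact Subgroup.mul_mem _ (Subgroup.mul_mem _ hk2 (hmono hρζC)) (hmono hv)
      · intro q hq
        obtain ⟨h1, h2, h3, h4, h5⟩ := hp q (List.mem_cons_of_mem _ hq)
        refine ⟨h1, h2, h3, h4, ?_⟩
        intro h6
        rcases Set.mem_insert_iff.1 h6 with h7 | h7
        · rw [List.map_cons, List.nodup_cons] at hnd
          exact hnd.1 (List.mem_map.2 ⟨q, hq, h7⟩)
        · exact h5 h7
      · rw [List.map_cons, List.nodup_cons] at hnd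
        exact hnd.2
      · exact e1.um hu
      · rw [hLv1]
        exact um_keep t ζ w hζ (hcl (hclB hζB)) (hcl hwC) hw
    rw [hLv1] at e3
    exact (e1.trans e3).trans e2.symm

end MP15511a
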