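import Pool.Agent.Lib.MP_15511a_al.Stab.Main

/-!
The Fox row of a primitive element is unimodular.
-/

open scoped commutatorElement

namespace MP15511a

variable (c r : ℕ)

noncomputable instance actZN : DistribMulAction (Nil c r) (MonoidAlgebra ℤ (Nil c r)) :=
  DistribMulAction.compHom (MonoidAlgebra ℤ (Nil c r)) (MonoidAlgebra.of ℤ (Nil c r))

theorem smulN_def (g : Nil c r) (e : MonoidAlgebra ℤ (Nil c r)) :
    g • e = MonoidAlgebra.of ℤ (Nil c r) g * e := rfl

theorem nil_lcs : (⊤ : Subgroup (Nil c r)).lowerCentralSeries c = ⊥ := by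
  have h1 : (⊤ : Subgroup (Nil c r)).lowerCentralSeries c
      = ((⊤ : Subgroup (FreeGroup (Fin r))).lowerCentralSeries c).map (QuotientGroup.mk' _) := by
    rw [Subgroup.map_lowerCentralSeries, Subgroup.map_top_of_surjective _
      (QuotientGroup.mk'_surjective _)]
  rw [h1, Subgroup.map_eq_bot_iff, QuotientGroup.ker_mk']

theorem inAN_nil : InAN c (Nil c r) := by
  rw [InAN, nil_lcs, Subgroup.commutator_bot_left]

theorem inAN_SDN : InAN c (SD (MonoidAlgebra ℤ (Nil c r)) (Nil c r)) := by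
  have h1 : ∀ a ∈ (⊤ : Subgroup (SD (MonoidAlgebra ℤ (Nil c r)) (Nil c r))).lowerCentralSeries c,
      a.g = 1 := by
    intro a ha
    have h3 : a.g ∈ ((⊤ : Subgroup (SD (MonoidAlgebra ℤ (Nil c r)) (Nil c r))).lowerCentralSeries
      c).map (SD.pr : SD (MonoidAlgebra ℤ (Nil c r)) (Nil c r) →* _) := ⟨a, ha, rfl⟩
    rw [Subgroup.map_lowerCentralSeries] at h3
    have h4 : a.g ∈ (⊤ : Subgroup (Nil c r)).lowerCentralSeries c :=
      Subgroup.lowerCentralSeries_mono c le_top h3
    rwa [nil_lcs, Subgroup.mem_bot] at h4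
  rw [InAN, Subgroup.commutator_eq_bot_iff_le_centralizer]
  intro a ha b hb
  rw [← commutatorElement_eq_one_iff_mul_comm]
  apply SD.ext
  · rw [SD.comm_v, h1 a ha, h1 b hb]
    simp
  · rw [SD.comm_g, h1 a ha, h1 b hb]
    simp

variable {c r} {n : ℕ}

/-- the retraction -/
def ret (c : ℕ) (r n : ℕ) : FreeAN c n →* Nil c r :=
  liftAN (inAN_nil c r) (fun j => if h : j.val < r then
    QuotientGroup.mk (FreeGroup.of ⟨j.val, h⟩) else 1)

theorem ret_emb (h : r ≤ n) (g : FreeGroup (Fin r)) :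
    ret c r n (emb c h g) = QuotientGroup.mk g := by
  have h1 : (ret c r n).comp (emb c h) = QuotientGroup.mk' _ := by
    apply FreeGroup.ext_hom
    intro i
    rw [MonoidHom.comp_apply, emb_of, ret, liftAN_gen]
    have h2 : (Fin.castLE h i).val < r := i.2
    exact dif_pos h2
  exact DFunLike.congr_fun h1 g

/-- Fox derivatives exist -/
theorem exists_fox (c r : ℕ) : ∃ D, IsFox c r D := by
  let F : Fin r → FreeGroup (Fin r) →* SD (MonoidAlgebra ℤ (Nil c r)) (Nil c r) := fun i =>
    FreeGroup.lift (fun j => ⟨if i = j then 1 else 0, QuotientGroup.mk (FreeGroup.of j)⟩)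
  have hF : ∀ i g, (F i g).g = QuotientGroup.mk g := by
    intro i g
    have h1 : (SD.pr : SD (MonoidAlgebra ℤ (Nil c r)) (Nil c r) →* Nil c r).comp (F i)
        = QuotientGroup.mk' _ := by
      apply FreeGroup.ext_hom
      intro j
      simp [F]
    exact DFunLike.congr_fun h1 g
  refine ⟨fun i g => (F i g).v, ?_, ?_⟩
  · intro i j
    simp [F]
  · intro i g h
    change (F i (g * h)).v = _
    rw [map_mul, SD.mul_v, hF]
    rfl

theorem unimodular_of_primitive (h : r ≤ n) (w : FreeGroup (Fin r))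
    (hw : Primitive (emb c h w)) : UnimodularRow c w := by
  obtain ⟨b, hb, i, hi⟩ := hw
  obtain ⟨f, hf, -⟩ := hb (SD (MonoidAlgebra ℤ (Nil c r)) (Nil c r)) (inAN_SDN c r)
    (fun j => ⟨if j = i then 1 else 0, ret c r n (b j)⟩)
  have hfg : ∀ g, (f g).g = ret c r n g := by
    intro g
    obtain ⟨_, -, hun⟩ := hb (Nil c r) (inAN_nil c r) (fun j => ret c r n (b j))
    have h1 := hun ((SD.pr : SD (MonoidAlgebra ℤ (Nil c r)) (Nil c r) →* Nil c r).comp f) (by
      intro j
      rw [MonoidHom.comp_apply, hf]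
      rfl)
    have h2 := hun (ret c r n) (fun j => rfl)
    exact DFunLike.congr_fun (h1.trans h2.symm) g
  obtain ⟨D, hD⟩ := exists_fox c r
  refine ⟨D, hD, fun j => (f (gen c (Fin.castLE h j))).v, ?_⟩
  have h3 : ∀ g, (f (emb c h g)).v = ∑ j, D j g * (f (gen c (Fin.castLE h j))).v := by
    apply free_crossed ((MonoidAlgebra.of ℤ (Nil c r)).comp (QuotientGroup.mk' _))
    · intro g k
      rw [map_mul, map_mul, SD.mul_v, hfg, ret_emb]
      rfl
    · intro g k
      rw [Finset.mul_sum, ← Finset.sum_add_distrib]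
      refine Finset.sum_congr rfl fun j _ => ?_
      rw [hD.2]
      change _ = D j g * _ + MonoidAlgebra.of ℤ (Nil c r) (QuotientGroup.mk g) * _
      noncomm_ring
    · intro j
      rw [emb_of, Finset.sum_eq_single j]
      · rw [hD.1, if_pos rfl, one_mul]
      · intro k _ hk
        rw [hD.1, if_neg hk, zero_mul]
      · intro hk
        exact absurd (Finset.mem_univ _) hk
  rw [← h3, ← hi, hf]
  exact if_pos rfl

end MP15511a
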