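import Pool.Agent.Lib.MP_15511a_al.Stab.Crossed

/-!
If the Fox row of `w = [ρ, ζ] x_i` is unimodular then w is primitive in larger rank.
-/

open scoped commutatorElement

namespace MP15511a

variable {c n : ℕ}

theorem Te_comm (ζ : FreeAN c n) (hζ : ∀ g : FreeAN c n, ⁅g, ζ⁆ ∈ AA c n) (e : EE c n) :
    Te c n ζ * e = e * Te c n ζ := by
  induction e using EE_ind with
  | hT g =>
    have h1 : g * ζ = ⁅g, ζ⁆ * (ζ * g) := by rw [commutatorElement_def]; group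
    rw [← map_mul, ← map_mul, h1, map_mul (Te c n) ⁅g, ζ⁆, Te_triv c n _ (hζ g), one_mul]
  | h1 => rw [mul_one, one_mul]
  | h0 => rw [mul_zero, zero_mul]
  | ha a b h h' => rw [mul_add, add_mul, h, h']
  | hm a b h h' => rw [← mul_assoc, h, mul_assoc, h', mul_assoc]
  | hn a h => rw [mul_neg, neg_mul, h]

theorem comm_zeta (ζ : FreeAN c n) (hζ : ∀ g : FreeAN c n, ⁅g, ζ⁆ ∈ AA c n) {f : FreeAN c n → EE c n}
    (hf : Crossed f) (g : FreeAN c n) :
    f ⁅g, ζ⁆ = (1 - Te c n ζ) * f g + (Te c n g - 1) * f ζ := by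
  have h1 : g * ζ * g⁻¹ = ⁅g, ζ⁆ * ζ := by rw [commutatorElement_def]; group
  rw [hf.comm, h1, map_mul, Te_triv c n _ (hζ g)]
  noncomm_ring

theorem vl_delta (ζ : FreeAN c n) (v : VV c n) :
    vl ((1 - Te c n ζ : EE c n).1 v) = ⁅vl v, ζ⁆ := by
  have h1 : (1 - Te c n ζ : EE c n).1 v = v + -(Tc c n ζ v) := by
    change v - Tc c n ζ v = _
    rw [sub_eq_add_neg]
  rw [h1, vl_add, vl_neg, vl_Tc, commutatorElement_def]
  group

/-- the core -/
theorem stab_core (i0 it : Fin n) (hne : i0 ≠ it) (ρ ζ : FreeAN c n)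
    (hρ : ρ ∈ AA c n) (hζ : ∀ g : FreeAN c n, ⁅g, ζ⁆ ∈ AA c n)
    (hρH : ρ ∈ Subgroup.closure (gen c '' {j : Fin n | j ≠ it}))
    (hζH : ζ ∈ Subgroup.closure (gen c '' {j : Fin n | j ≠ it}))
    (a : Fin n → EE c n) (ha : Dc a (⁅ρ, ζ⁆ * gen c i0) = 1) :
    ∃ Φ Ψ : FreeAN c n →* FreeAN c n, (∀ g, Φ (Ψ g) = g) ∧ (∀ g, Ψ (Φ g) = g) ∧
      Φ (gen c i0) = ⁅ρ, ζ⁆ * gen c i0 := by
  classical
  set H := Subgroup.closure (gen c '' {j : Fin n | j ≠ it}) with hH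
  set t : FreeAN c n := gen c it with ht
  set w : FreeAN c n := ⁅ρ, ζ⁆ * gen c i0 with hw
  set δ : EE c n := 1 - Te c n ζ with hδ
  have hδc : ∀ e : EE c n, δ * e = e * δ := by
    intro e
    rw [hδ, sub_mul, mul_sub, one_mul, mul_one, Te_comm ζ hζ]
  have hx : gen c i0 ∈ H := Subgroup.subset_closure ⟨i0, hne, rfl⟩
  have hwH : w ∈ H := H.mul_mem
    (by rw [commutatorElement_def]
        exact H.mul_mem (H.mul_mem (H.mul_mem hρH hζH) (H.inv_mem hρH)) (H.inv_mem hζH)) hx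
  set θ : VV c n := mkV ⁅t, ζ⁆ (hζ t) with hθ
  set ρV : VV c n := mkV ρ hρ with hρV
  -- first move
  set e : FreeAN c n → EE c n := Dc (Pi.single i0 1) with he
  have hec : Crossed e := Dc_crossed _
  set β : EE c n := -(e ρ + (Te c n t - 1) * e ζ) with hβ
  set b1 : Fin n → EE c n := fun j => if j = it then β else (Pi.single i0 1 : Fin n → EE c n) j * δ
    with hb1
  have f1c : Crossed (Dc b1) := Dc_crossed _
  have f1H : ∀ g ∈ H, Dc b1 g = e g * δ := by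
    apply f1c.eqOn (hec.mul_right δ)
    rintro _ ⟨j, hj, rfl⟩
    change Dc b1 (gen c j) = Dc (Pi.single i0 1) (gen c j) * δ
    rw [Dc_gen, Dc_gen, hb1]
    exact if_neg hj
  have f1t : Dc b1 t = β := by
    rw [ht, Dc_gen, hb1]
    exact if_pos rfl
  have f1x : Dc b1 (gen c i0) = δ := by
    rw [f1H _ hx, he, Dc_gen, Pi.single_eq_same, one_mul]
  set σ : VV c n := θ + ρV with hσ
  have f1σ : Dc b1 (vl σ) = 0 := by
    rw [hσ, f1c.vladd, hθ, hρV, vl_mk, vl_mk, comm_zeta ζ hζ f1c, f1H ρ hρH, f1H ζ hζH, f1t,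
      ← hδ, hδc β, hβ]
    noncomm_ring
  have a1x : alpha (Dc b1) f1c σ (gen c i0) = vl (δ.1 θ) * w := by
    rw [alpha_apply, f1x, hσ, map_add, vl_add]
    rw [show vl (δ.1 ρV) = ⁅ρ, ζ⁆ from vl_delta ζ ρV, mul_assoc]
  -- second move
  set b2 : Fin n → EE c n := fun j => if j = it then (Te c n t - 1) * Dc a ζ else a j * -δ
    with hb2
  have f2c : Crossed (Dc b2) := Dc_crossed _
  have f2H : ∀ g ∈ H, Dc b2 g = Dc a g * -δ := by
    apply f2c.eqOn ((Dc_crossed a).mul_right (-δ))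
    rintro _ ⟨j, hj, rfl⟩
    rw [Dc_gen, Dc_gen, hb2]
    exact if_neg hj
  have f2t : Dc b2 t = (Te c n t - 1) * Dc a ζ := by
    rw [ht, Dc_gen, hb2]
    exact if_pos rfl
  have f2θ : Dc b2 (vl θ) = 0 := by
    rw [hθ, vl_mk, comm_zeta ζ hζ f2c, f2H ζ hζH, f2t, ← hδ, hδc]
    noncomm_ring
  have f2w : Dc b2 w = -δ := by rw [f2H w hwH, ha, one_mul]
  refine ⟨(alpha (Dc b2) f2c θ).comp (alpha (Dc b1) f1c σ),
    (alpha (fun g => - Dc b1 g) f1c.neg σ).comp (alpha (fun g => - Dc b2 g) f2c.neg θ),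
    ?_, ?_, ?_⟩
  · intro g
    rw [MonoidHom.comp_apply, MonoidHom.comp_apply, alpha_inv _ f1c σ f1σ,
      alpha_inv _ f2c θ f2θ]
  · intro g
    rw [MonoidHom.comp_apply, MonoidHom.comp_apply, alpha_inv' _ f2c θ f2θ,
      alpha_inv' _ f1c σ f1σ]
  · rw [MonoidHom.comp_apply, a1x, map_mul, alpha_fix _ f2c θ f2θ, alpha_apply, f2w,
      ← mul_assoc, ← vl_add]
    have h1 : δ.1 θ + (-δ : EE c n).1 θ = 0 := by
      change δ.1 θ + -(δ.1 θ) = 0
      rw [add_neg_cancel]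
    rw [h1, vl_zero, one_mul]

/-- images of the standard basis under automorphisms are bases -/
theorem isBasis_of_aut (Φ Ψ : FreeAN c n →* FreeAN c n) (h1 : ∀ g, Φ (Ψ g) = g)
    (h2 : ∀ g, Ψ (Φ g) = g) : IsBasis (fun i => Φ (gen c i)) := by
  intro K _ hK k
  refine ⟨(liftAN hK k).comp Ψ, ?_, ?_⟩
  · intro i
    rw [MonoidHom.comp_apply, h2, liftAN_gen]
  · intro f hf
    have h3 : f.comp Φ = liftAN hK k := by
      apply hom_ext
      intro i
      rw [MonoidHom.comp_apply, hf, liftAN_gen]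
    rw [← h3]
    refine MonoidHom.ext fun g => ?_
    rw [MonoidHom.comp_apply, MonoidHom.comp_apply, h1]

theorem primitive_of_aut (Φ Ψ : FreeAN c n →* FreeAN c n) (h1 : ∀ g, Φ (Ψ g) = g)
    (h2 : ∀ g, Ψ (Φ g) = g) (i : Fin n) : Primitive (Φ (gen c i)) :=
  ⟨fun i => Φ (gen c i), isBasis_of_aut Φ Ψ h1 h2, i, rfl⟩

end MP15511a
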