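import Pool.Agent.Lib.MP_15511a_al.Stab.Act

/-!
Crossed homomorphisms from `G = F_n(A N_c)` to the ring of operators on `γ_{c+1}(G)`, and the
endomorphisms of G which they define.
-/

open scoped commutatorElement

namespace MP15511a

variable {c n : ℕ}

/-- crossed homomorphisms -/
def Crossed (f : FreeAN c n → EE c n) : Prop := ∀ g h, f (g * h) = f g + Te c n g * f h

namespace Crossed

variable {f f' : FreeAN c n → EE c n}

theorem one (hf : Crossed f) : f 1 = 0 := by
  have h := hf 1 1
  rw [mul_one, map_one, one_mul] at h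
  exact (add_eq_left.1 h.symm)

theorem inv (hf : Crossed f) (g : FreeAN c n) : f g⁻¹ = -(Te c n g⁻¹ * f g) := by
  have h := hf g⁻¹ g
  rw [inv_mul_cancel, hf.one] at h
  rw [eq_neg_iff_add_eq_zero]
  exact h.symm

theorem neg (hf : Crossed f) : Crossed (fun g => - f g) := by
  intro g h
  simp only [hf g h]
  rw [mul_neg, neg_add]

theorem add (hf : Crossed f) (hf' : Crossed f') : Crossed (fun g => f g + f' g) := by
  intro g h
  simp only [hf g h, hf' g h]
  noncomm_ring

theorem mul_right (hf : Crossed f) (l : EE c n) : Crossed (fun g => f g * l) := by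
  intro g h
  simp only [hf g h]
  noncomm_ring

theorem comm (hf : Crossed f) (g h : FreeAN c n) :
    f ⁅g, h⁆ = f g + Te c n g * f h - Te c n (g * h * g⁻¹) * f g - Te c n ⁅g, h⁆ * f h := by
  rw [commutatorElement_def, hf, hf, hf, hf.inv, hf.inv]
  simp only [map_mul]
  noncomm_ring

theorem triv_mul (hf : Crossed f) {a : FreeAN c n} (ha : a ∈ AA c n) (g : FreeAN c n) :
    f (a * g) = f a + f g := by
  rw [hf, Te_triv c n a ha, one_mul]

theorem vladd (hf : Crossed f) (v w : VV c n) : f (vl (v + w)) = f (vl v) + f (vl w) := by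
  rw [vl_add, hf.triv_mul (vl_mem v)]

theorem vlzero (hf : Crossed f) : f (vl (0 : VV c n)) = 0 := by
  rw [vl_zero, hf.one]

theorem vlneg (hf : Crossed f) (v : VV c n) : f (vl (-v)) = - f (vl v) := by
  have h := hf.vladd v (-v)
  rw [add_neg_cancel, hf.vlzero] at h
  rw [eq_neg_iff_add_eq_zero, add_comm]
  exact h.symm

theorem conj (hf : Crossed f) (g : FreeAN c n) (v : VV c n) :
    f (g * vl v * g⁻¹) = Te c n g * f (vl v) := by
  rw [hf, hf, hf.inv, map_mul, Te_triv c n _ (vl_mem v), mul_one, mul_neg, ← mul_assoc,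
    ← map_mul, mul_inv_cancel, map_one, one_mul]
  abel

theorem vlE (hf : Crossed f) (e : EE c n) : ∀ v : VV c n, f (vl (e.1 v)) = e * f (vl v) := by
  induction e using EE_ind with
  | hT g =>
    intro v
    rw [Te_val, vl_Tc, hf.conj]
  | h1 =>
    intro v
    rw [one_mul]
    rfl
  | h0 =>
    intro v
    rw [zero_mul]
    exact hf.vlzero
  | ha a b h h' =>
    intro v
    rw [add_mul, ← h, ← h', ← hf.vladd]
    rfl
  | hm a b h h' =>
    intro v
    rw [mul_assoc, ← h', ← h]
    rfl
  | hn a h =>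
    intro v
    rw [neg_mul, ← h, ← hf.vlneg]
    rfl

theorem eqOn (hf : Crossed f) (hf' : Crossed f') (S : Set (FreeAN c n))
    (h : ∀ g ∈ S, f g = f' g) : ∀ g ∈ Subgroup.closure S, f g = f' g := by
  intro g hg
  induction hg using Subgroup.closure_induction with
  | mem x hx => exact h x hx
  | one => rw [hf.one, hf'.one]
  | mul x y hx hy h1 h2 => rw [hf, hf', h1, h2]
  | inv x hx h1 => rw [hf.inv, hf'.inv, h1]

end Crossed

/-- the crossed homomorphism with given values on the generators -/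
def Dh (b : Fin n → EE c n) : FreeAN c n →* SD (EE c n) (FreeAN c n) :=
  liftAN (inAN_SD c n) (fun i => ⟨b i, gen c i⟩)

theorem Dh_g (b : Fin n → EE c n) (g : FreeAN c n) : (Dh b g).g = g := by
  have h : (SD.pr : SD (EE c n) (FreeAN c n) →* FreeAN c n).comp (Dh b) = MonoidHom.id _ := by
    apply hom_ext
    intro i
    rw [MonoidHom.comp_apply, Dh, liftAN_gen]
    rfl
  exact DFunLike.congr_fun h g

/-- the crossed homomorphism with given values on the generators -/
def Dc (b : Fin n → EE c n) (g : FreeAN c n) : EE c n := (Dh b g).v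

theorem Dc_crossed (b : Fin n → EE c n) : Crossed (Dc b) := by
  intro g h
  rw [Dc, Dc, Dc, map_mul, SD.mul_v, Dh_g, smul_def']

theorem Dc_gen (b : Fin n → EE c n) (i : Fin n) : Dc b (gen c i) = b i := by
  rw [Dc, Dh, liftAN_gen]

/-- the endomorphism g ↦ f(g)(ρ) g -/
def alpha (f : FreeAN c n → EE c n) (hf : Crossed f) (ρ : VV c n) :
    FreeAN c n →* FreeAN c n where
  toFun g := vl ((f g).1 ρ) * g
  map_one' := by
    rw [hf.one, mul_one]
    rfl
  map_mul' := by
    intro g h
    have h1 : (f (g * h)).1 ρ = (f g).1 ρ + Tc c n g ((f h).1 ρ) := by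
      rw [hf]; rfl
    rw [h1, vl_add, vl_Tc]
    group

theorem alpha_apply (f : FreeAN c n → EE c n) (hf : Crossed f) (ρ : VV c n) (g : FreeAN c n) :
    alpha f hf ρ g = vl ((f g).1 ρ) * g := rfl

/-- if f(ρ) = 0 then elements e(ρ) are fixed -/
theorem alpha_fix (f : FreeAN c n → EE c n) (hf : Crossed f) (ρ : VV c n)
    (h0 : f (vl ρ) = 0) (e : EE c n) : alpha f hf ρ (vl (e.1 ρ)) = vl (e.1 ρ) := by
  rw [alpha_apply, hf.vlE, h0, mul_zero]
  change (1 : FreeAN c n) * _ = _
  rw [one_mul]

theorem alpha_inv (f : FreeAN c n → EE c n) (hf : Crossed f) (ρ : VV c n)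
    (h0 : f (vl ρ) = 0) (g : FreeAN c n) :
    alpha f hf ρ (alpha (fun g => - f g) hf.neg ρ g) = g := by
  rw [alpha_apply (fun g => - f g), map_mul, alpha_fix f hf ρ h0, alpha_apply, ← mul_assoc,
    ← vl_add]
  have h1 : ((- f g : EE c n)).1 ρ + (f g).1 ρ = 0 := by
    change -((f g).1 ρ) + (f g).1 ρ = 0
    rw [neg_add_cancel]
  rw [h1, vl_zero, one_mul]

theorem alpha_inv' (f : FreeAN c n → EE c n) (hf : Crossed f) (ρ : VV c n)
    (h0 : f (vl ρ) = 0) (g : FreeAN c n) :
    alpha (fun g => - f g) hf.neg ρ (alpha f hf ρ g) = g := by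
  have h1 := alpha_inv (fun g => - f g) hf.neg ρ (by rw [h0, neg_zero]) g
  have h2 : alpha (fun g => - - f g) hf.neg.neg ρ = alpha f hf ρ := by
    refine MonoidHom.ext fun g => ?_
    rw [alpha_apply, alpha_apply, neg_neg]
  rw [h2] at h1
  exact h1

end MP15511a
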