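import Mathlib

/-!
`γ_{k+1}(F_r)` is generated modulo `γ_{k+2}(F_r)` by at most `r^(k+1)` elements.
-/

open scoped commutatorElement

namespace MP15511a

theorem lcs_gen (r : ℕ) : ∀ k : ℕ, ∃ S : Finset (FreeGroup (Fin r)), S.card ≤ r ^ (k + 1) ∧
    (∀ s ∈ S, s ∈ (⊤ : Subgroup (FreeGroup (Fin r))).lowerCentralSeries k) ∧
    (⊤ : Subgroup (FreeGroup (Fin r))).lowerCentralSeries k ≤
      Subgroup.closure (S : Set (FreeGroup (Fin r))) ⊔
        (⊤ : Subgroup (FreeGroup (Fin r))).lowerCentralSeries (k + 1) := by
  classical
  intro k
  induction k with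
  | zero =>
    refine ⟨Finset.univ.image FreeGroup.of, ?_, ?_, ?_⟩
    · refine Finset.card_image_le.trans ?_
      simp
    · intro s _
      exact Subgroup.mem_top s
    · have h1 : ((Finset.univ.image (FreeGroup.of : Fin r → FreeGroup (Fin r)) : Finset _)
          : Set (FreeGroup (Fin r))) = Set.range FreeGroup.of := by
        simp
      rw [h1, FreeGroup.closure_range_of]
      exact le_top.trans le_sup_left
  | succ k ih =>
    obtain ⟨S, hS1, hS2, hS3⟩ := ih
    set T : Finset (FreeGroup (Fin r)) :=
      (S ×ˢ (Finset.univ : Finset (Fin r))).image (fun p => ⁅p.1, FreeGroup.of p.2⁆) with hT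
    have hTm : ∀ s ∈ T, s ∈ (⊤ : Subgroup (FreeGroup (Fin r))).lowerCentralSeries (k + 1) := by
      intro s hs
      obtain ⟨⟨p, j⟩, hp, rfl⟩ := Finset.mem_image.1 hs
      have hp' := (Finset.mem_product.1 hp).1
      exact Subgroup.commutator_mem_commutator (hS2 p hp') (Subgroup.mem_top _)
    refine ⟨T, ?_, hTm, ?_⟩
    · refine Finset.card_image_le.trans ?_
      rw [Finset.card_product, Finset.card_univ, Fintype.card_fin, pow_succ]
      exact Nat.mul_le_mul_right r hS1
    · set L : Subgroup (FreeGroup (Fin r)) := Subgroup.closure (T : Set (FreeGroup (Fin r))) ⊔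
        (⊤ : Subgroup (FreeGroup (Fin r))).lowerCentralSeries (k + 1 + 1) with hL
      have hL1 : L ≤ (⊤ : Subgroup (FreeGroup (Fin r))).lowerCentralSeries (k + 1) := by
        rw [hL, sup_le_iff]
        refine ⟨(Subgroup.closure_le _).2 hTm, ?_⟩
        exact Subgroup.lowerCentralSeries_antitone _ (Nat.le_succ _)
      have hconj : ∀ a ∈ L, ∀ g : FreeGroup (Fin r), g * a * g⁻¹ ∈ L := by
        intro a ha g
        have h1 : ⁅a, g⁆ ∈ L := by
          apply (le_sup_right : _ ≤ L)
          exact Subgroup.commutator_mem_commutator (hL1 ha) (Subgroup.mem_top g)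
        have h2 : g * a * g⁻¹ = (⁅a, g⁆)⁻¹ * a := by rw [commutatorElement_def]; group
        rw [h2]
        exact L.mul_mem (L.inv_mem h1) ha
      -- commutators of a fixed element with products
      have hright : ∀ s : FreeGroup (Fin r), (∀ j, ⁅s, FreeGroup.of j⁆ ∈ L) →
          ∀ h : FreeGroup (Fin r), ⁅s, h⁆ ∈ L := by
        intro s hs h
        have h0 : h ∈ Subgroup.closure (Set.range (FreeGroup.of : Fin r → FreeGroup (Fin r))) := by
          rw [FreeGroup.closure_range_of]; exact Subgroup.mem_top h
        induction h0 using Subgroup.closure_induction with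
        | mem x hx => obtain ⟨j, rfl⟩ := hx; exact hs j
        | one => rw [commutatorElement_one_right]; exact L.one_mem
        | mul x y _ _ hx hy =>
          have h2 : ⁅s, x * y⁆ = ⁅s, x⁆ * (x * ⁅s, y⁆ * x⁻¹) := by
            simp only [commutatorElement_def]; group
          rw [h2]
          exact L.mul_mem hx (hconj _ hy x)
        | inv x _ hx =>
          have h2 : ⁅s, x⁻¹⁆ = x⁻¹ * (⁅s, x⁆)⁻¹ * (x⁻¹)⁻¹ := by
            simp only [commutatorElement_def]; group
          rw [h2]
          exact hconj _ (L.inv_mem hx) _
      have hleft : ∀ g ∈ (⊤ : Subgroup (FreeGroup (Fin r))).lowerCentralSeries k,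
          ∀ h : FreeGroup (Fin r), ⁅g, h⁆ ∈ L := by
        intro g hg
        have h0 := hS3 hg
        rw [Subgroup.sup_eq_closure] at h0
        clear hg
        induction h0 using Subgroup.closure_induction with
        | mem x hx =>
          rcases hx with hx | hx
          · change x ∈ Subgroup.closure _ at hx
            induction hx using Subgroup.closure_induction with
            | mem y hy =>
              apply hright
              intro j
              apply (le_sup_left : _ ≤ L)
              apply Subgroup.subset_closure
              exact Finset.mem_image.2 ⟨(y, j), Finset.mem_product.2 ⟨hy, Finset.mem_univ j⟩, rfl⟩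
            | one => intro h; rw [commutatorElement_one_left]; exact L.one_mem
            | mul x y _ _ hx hy =>
              intro h
              have h2 : ⁅x * y, h⁆ = (x * ⁅y, h⁆ * x⁻¹) * ⁅x, h⁆ := by
                simp only [commutatorElement_def]; group
              rw [h2]
              exact L.mul_mem (hconj _ (hy h) x) (hx h)
            | inv x _ hx =>
              intro h
              have h2 : ⁅x⁻¹, h⁆ = x⁻¹ * (⁅x, h⁆)⁻¹ * (x⁻¹)⁻¹ := by
                simp only [commutatorElement_def]; group
              rw [h2]
              exact hconj _ (L.inv_mem (hx h)) _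
          · intro h
            apply (le_sup_right : _ ≤ L)
            exact Subgroup.commutator_mem_commutator hx (Subgroup.mem_top h)
        | one => intro h; rw [commutatorElement_one_left]; exact L.one_mem
        | mul x y _ _ hx hy =>
          intro h
          have h2 : ⁅x * y, h⁆ = (x * ⁅y, h⁆ * x⁻¹) * ⁅x, h⁆ := by
            simp only [commutatorElement_def]; group
          rw [h2]
          exact L.mul_mem (hconj _ (hy h) x) (hx h)
        | inv x _ hx =>
          intro h
          have h2 : ⁅x⁻¹, h⁆ = x⁻¹ * (⁅x, h⁆)⁻¹ * (x⁻¹)⁻¹ := by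
            simp only [commutatorElement_def]; group
          rw [h2]
          exact hconj _ (L.inv_mem (hx h)) _
      rw [Subgroup.lowerCentralSeries_succ, Subgroup.commutator_le]
      intro g hg h _
      exact hleft g hg h

end MP15511a
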