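import Pool.Agent.Lib.MP_15511a_al.Stab.Core

/-!
Fox rows over `Z[F_r / γ_{c+1}(F_r)]` and primitivity in larger rank.
-/

open scoped commutatorElement

namespace MP15511a

/-- `F_r / γ_{c+1}(F_r)` -/
abbrev Nil (c r : ℕ) : Type :=
  FreeGroup (Fin r) ⧸ (⊤ : Subgroup (FreeGroup (Fin r))).lowerCentralSeries c

/-- The Fox derivatives over the integral group ring of `F_r / γ_{c+1}(F_r)`. -/
def IsFox (c r : ℕ) (D : Fin r → FreeGroup (Fin r) → MonoidAlgebra ℤ (Nil c r)) : Prop :=
  (∀ i j, D i (FreeGroup.of j) = if i = j then 1 else 0) ∧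
  (∀ i g h, D i (g * h) = D i g + MonoidAlgebra.of ℤ (Nil c r) (QuotientGroup.mk g) * D i h)

/-- The row of Fox derivatives of w is unimodular. -/
def UnimodularRow (c : ℕ) {r : ℕ} (w : FreeGroup (Fin r)) : Prop :=
  ∃ D, IsFox c r D ∧ ∃ a : Fin r → MonoidAlgebra ℤ (Nil c r), ∑ i, D i w * a i = 1

/-- the map `F_r → F_n(A N_c)`, `x_i ↦ x_i`, for `r ≤ n` -/
def emb (c : ℕ) {r n : ℕ} (h : r ≤ n) : FreeGroup (Fin r) →* FreeAN c n :=
  FreeGroup.lift (fun i => gen c (Fin.castLE h i))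

theorem emb_of (c : ℕ) {r n : ℕ} (h : r ≤ n) (i : Fin r) :
    emb c h (FreeGroup.of i) = gen c (Fin.castLE h i) := by simp [emb]

/-- uniqueness of crossed homomorphisms on free groups -/
theorem free_crossed {α E : Type*} [Ring E] (T : FreeGroup α →* E) (f f' : FreeGroup α → E)
    (hf : ∀ g h, f (g * h) = f g + T g * f h) (hf' : ∀ g h, f' (g * h) = f' g + T g * f' h)
    (hg : ∀ i, f (FreeGroup.of i) = f' (FreeGroup.of i)) (g : FreeGroup α) : f g = f' g := by
  have one : ∀ f : FreeGroup α → E, (∀ g h, f (g * h) = f g + T g * f h) → f 1 = 0 := by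
    intro f hf
    have h := hf 1 1
    rw [mul_one, map_one, one_mul] at h
    exact (add_eq_left.1 h.symm)
  have inv : ∀ f : FreeGroup α → E, (∀ g h, f (g * h) = f g + T g * f h) →
      ∀ g, f g⁻¹ = -(T g⁻¹ * f g) := by
    intro f hf g
    have h := hf g⁻¹ g
    rw [inv_mul_cancel, one f hf] at h
    rw [eq_neg_iff_add_eq_zero]
    exact h.symm
  induction g using FreeGroup.induction_on with
  | C1 => rw [one f hf, one f' hf']
  | of i => exact hg i
  | inv_of i h => rw [inv f hf, inv f' hf', h]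
  | mul a b h h' => rw [hf, hf', h, h']

variable {c r n : ℕ}

theorem emb_lcs (h : r ≤ n) (k : ℕ) {g : FreeGroup (Fin r)}
    (hg : g ∈ (⊤ : Subgroup (FreeGroup (Fin r))).lowerCentralSeries k) :
    emb c h g ∈ (⊤ : Subgroup (FreeAN c n)).lowerCentralSeries k := by
  have h1 : emb c h g ∈ ((⊤ : Subgroup (FreeGroup (Fin r))).lowerCentralSeries k).map (emb c h) :=
    ⟨g, hg, rfl⟩
  rw [Subgroup.map_lowerCentralSeries] at h1
  exact Subgroup.lowerCentralSeries_mono k le_top h1

theorem emb_closure (h : r < n) (g : FreeGroup (Fin r)) :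
    emb c h.le g ∈ Subgroup.closure (gen c '' {j : Fin n | j ≠ ⟨r, h⟩}) := by
  induction g using FreeGroup.induction_on with
  | C1 => rw [map_one]; exact Subgroup.one_mem _
  | of i =>
    rw [emb_of]
    refine Subgroup.subset_closure ⟨Fin.castLE h.le i, ?_, rfl⟩
    intro h1
    have h2 := congrArg Fin.val h1
    have h3 := i.2
    simp at h2
    omega
  | inv_of i hi => rw [map_inv]; exact Subgroup.inv_mem _ hi
  | mul a b ha hb => rw [map_mul]; exact Subgroup.mul_mem _ ha hb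

/-- the action of `F_r / γ_{c+1}` on `γ_{c+1}(G)` -/
def actN (c : ℕ) {r n : ℕ} (h : r ≤ n) : Nil c r →* EE c n :=
  QuotientGroup.lift _ ((Te c n).comp (emb c h)) (by
    intro g hg
    rw [MonoidHom.mem_ker, MonoidHom.comp_apply]
    exact Te_triv c n _ (emb_lcs h c hg))

/-- the ring homomorphism -/
noncomputable def Psi (c : ℕ) {r n : ℕ} (h : r ≤ n) : MonoidAlgebra ℤ (Nil c r) →+* EE c n :=
  (MonoidAlgebra.lift ℤ (EE c n) (Nil c r) (actN c h)).toRingHom

theorem Psi_of (h : r ≤ n) (g : FreeGroup (Fin r)) :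
    Psi c h (MonoidAlgebra.of ℤ (Nil c r) (QuotientGroup.mk g)) = Te c n (emb c h g) := by
  change MonoidAlgebra.lift ℤ (EE c n) (Nil c r) (actN c h) _ = _
  rw [MonoidAlgebra.lift_of]
  rfl

/-- unimodular rows give primitive elements in larger rank -/
theorem primitive_of_unimodular (i : Fin r) (ρ ζ : FreeGroup (Fin r))
    (hρ : ρ ∈ (⊤ : Subgroup (FreeGroup (Fin r))).lowerCentralSeries (c + 1))
    (hζ : ζ ∈ (⊤ : Subgroup (FreeGroup (Fin r))).lowerCentralSeries c) (h : r < n)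
    (hu : UnimodularRow (c + 1) (⁅ρ, ζ⁆ * FreeGroup.of i)) :
    Primitive (emb (c + 1) h.le (⁅ρ, ζ⁆ * FreeGroup.of i)) := by
  obtain ⟨D, ⟨hD1, hD2⟩, a, ha⟩ := hu
  set Ψ := Psi (c + 1) h.le with hΨ
  set a' : Fin n → EE (c + 1) n := fun j => if hj : j.val < r then Ψ (a ⟨j.val, hj⟩) else 0
    with ha'
  have h1 : ∀ g, Dc a' (emb (c + 1) h.le g) = Ψ (∑ i, D i g * a i) := by
    apply free_crossed ((Te (c + 1) n).comp (emb (c + 1) h.le))
    · intro g k
      rw [map_mul, Dc_crossed]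
      rfl
    · intro g k
      rw [MonoidHom.comp_apply, ← Psi_of, ← map_mul, ← map_add]
      congr 1
      rw [Finset.mul_sum, ← Finset.sum_add_distrib]
      refine Finset.sum_congr rfl fun j _ => ?_
      rw [hD2]
      noncomm_ring
    · intro j
      rw [emb_of, Dc_gen, Finset.sum_eq_single j]
      · rw [hD1, if_pos rfl, one_mul, ha']
        have h2 : (Fin.castLE h.le j).val < r := j.2
        exact dif_pos h2
      · intro k _ hk
        rw [hD1, if_neg hk, zero_mul]
      · intro hk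
        exact absurd (Finset.mem_univ _) hk
  have e1 : emb (c + 1) h.le (⁅ρ, ζ⁆ * FreeGroup.of i)
      = ⁅emb (c + 1) h.le ρ, emb (c + 1) h.le ζ⁆ * gen (c + 1) (Fin.castLE h.le i) := by
    rw [map_mul, map_commutatorElement, emb_of]
  have h2 : Dc a' (⁅emb (c + 1) h.le ρ, emb (c + 1) h.le ζ⁆
      * gen (c + 1) (Fin.castLE h.le i)) = 1 := by
    rw [← e1, h1, ha, map_one]
  obtain ⟨Φ, Ψ', h3, h4, h5⟩ := stab_core (Fin.castLE h.le i) ⟨r, h⟩
    (by
      intro h3
      have h4 := congrArg Fin.val h3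
      have h5 := i.2
      simp at h4
      omega)
    (emb (c + 1) h.le ρ) (emb (c + 1) h.le ζ) (emb_lcs h.le (c + 1) hρ)
    (by
      intro g
      have h6 : ⁅emb (c + 1) h.le ζ, g⁆ ∈ AA (c + 1) n :=
        Subgroup.commutator_mem_commutator (emb_lcs h.le c hζ) (Subgroup.mem_top g)
      have h7 := Subgroup.inv_mem _ h6
      rwa [commutatorElement_inv] at h7)
    (emb_closure h ρ) (emb_closure h ζ) a' h2
  rw [e1, ← h5]
  exact primitive_of_aut Φ Ψ' h3 h4 _

end MP15511a
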