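import Pool.Agent.Lib.MP_15511a_al.Stab.Main
import Pool.Agent.Lib.MP_15511a_al.Stab.Chain
import Pool.Agent.Lib.MP_15511a_al.Stab.FG

/-!
Elements of the coset `[γ_{c+2}(F_r), γ_{c+1}(F_r)] x_i` with unimodular Fox row are primitive
in `F_n(A N_{c+1})` as soon as `n ≥ r + r^(c+1)`.
-/

open scoped commutatorElement

namespace MP15511a

variable {c r n : ℕ}

/-- unimodular rows give unimodular elements -/
theorem um_of_row (h : r ≤ n) (w : FreeGroup (Fin r)) (hu : UnimodularRow c w) :
    UM (emb c h w) := by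
  obtain ⟨D, ⟨hD1, hD2⟩, a, ha⟩ := hu
  set Ψ := Psi c h with hΨ
  set a' : Fin n → EE c n := fun j => if hj : j.val < r then Ψ (a ⟨j.val, hj⟩) else 0
    with ha'
  refine ⟨Dc a', Dc_crossed a', ?_⟩
  have h1 : ∀ g, Dc a' (emb c h g) = Ψ (∑ i, D i g * a i) := by
    apply free_crossed ((Te c n).comp (emb c h))
    · intro g k
      rw [map_mul, Dc_crossed]
      rfl
    · intro g k
      rw [MonoidHom.comp_apply, ← Psi_of, ← map_mul, ← map_add]
      congr 1
      rw [Finset.mul_sum, ← Finset.sum_add_distrib]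
      refine Finset.sum_congr rfl fun j _ => ?_
      rw [hD2]
      noncomm_ring
    · intro j
      rw [emb_of, Dc_gen, Finset.sum_eq_single j]
      · rw [hD1, if_pos rfl, one_mul, ha']
        have h2 : (Fin.castLE h j).val < r := j.2
        exact dif_pos h2
      · intro k _ hk
        rw [hD1, if_neg hk, zero_mul]
      · intro hk
        exact absurd (Finset.mem_univ _) hk
  rw [h1, ha, map_one]

theorem emb_closureB (h : r ≤ n) (g : FreeGroup (Fin r)) :
    emb c h g ∈ Subgroup.closure (gen c '' {j : Fin n | j.val < r}) := by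
  induction g using FreeGroup.induction_on with
  | C1 => rw [map_one]; exact Subgroup.one_mem _
  | of i =>
    rw [emb_of]
    exact Subgroup.subset_closure ⟨Fin.castLE h i, i.2, rfl⟩
  | inv_of i hi => rw [map_inv]; exact Subgroup.inv_mem _ hi
  | mul a b ha hb => rw [map_mul]; exact Subgroup.mul_mem _ ha hb

/-- elements of `γ_{c+1}` are central modulo `γ_{c+2}` -/
theorem emb_central (h : r ≤ n) {ζ : FreeGroup (Fin r)}
    (hζ : ζ ∈ (⊤ : Subgroup (FreeGroup (Fin r))).lowerCentralSeries c) :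
    ∀ g : FreeAN (c + 1) n, ⁅g, emb (c + 1) h ζ⁆ ∈ AA (c + 1) n := by
  intro g
  have h6 : ⁅emb (c + 1) h ζ, g⁆ ∈ AA (c + 1) n :=
    Subgroup.commutator_mem_commutator (emb_lcs h c hζ) (Subgroup.mem_top g)
  have h7 := Subgroup.inv_mem _ h6
  rwa [commutatorElement_inv] at h7

/-- sums of `δ_s(ρ_s)` -/
def Sums (c : ℕ) {r n : ℕ} (h : r ≤ n) (S : Finset (FreeGroup (Fin r)))
    (v : VV (c + 1) n) : Prop :=
  ∃ ρ : S → VV (c + 1) n,
    (∀ s, vl (ρ s) ∈ Subgroup.closure (gen (c + 1) '' {j : Fin n | j.val < r})) ∧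
    v = ∑ s : S, (1 - Te (c + 1) n (emb (c + 1) h s.1) : EE (c + 1) n).1 (ρ s)

theorem Sums.zero (h : r ≤ n) (S : Finset (FreeGroup (Fin r))) : Sums c h S 0 := by
  refine ⟨fun _ => 0, ?_, ?_⟩
  · intro s
    rw [vl_zero]
    exact Subgroup.one_mem _
  · simp

theorem Sums.add (h : r ≤ n) (S : Finset (FreeGroup (Fin r))) {v w : VV (c + 1) n}
    (hv : Sums c h S v) (hw : Sums c h S w) : Sums c h S (v + w) := by
  obtain ⟨ρ, h1, rfl⟩ := hv
  obtain ⟨ρ', h1', rfl⟩ := hw
  refine ⟨fun s => ρ s + ρ' s, ?_, ?_⟩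
  · intro s
    rw [vl_add]
    exact Subgroup.mul_mem _ (h1 s) (h1' s)
  · rw [← Finset.sum_add_distrib]
    refine Finset.sum_congr rfl fun s _ => ?_
    rw [map_add]

theorem Sums.neg (h : r ≤ n) (S : Finset (FreeGroup (Fin r))) {v : VV (c + 1) n}
    (hv : Sums c h S v) : Sums c h S (-v) := by
  obtain ⟨ρ, h1, rfl⟩ := hv
  refine ⟨fun s => - ρ s, ?_, ?_⟩
  · intro s
    rw [vl_neg]
    exact Subgroup.inv_mem _ (h1 s)
  · rw [← Finset.sum_neg_distrib]
    refine Finset.sum_congr rfl fun s _ => ?_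
    rw [map_neg]

theorem Te_keep (h : r ≤ n) (g : FreeGroup (Fin r)) (v : VV (c + 1) n)
    (hv : vl v ∈ Subgroup.closure (gen (c + 1) '' {j : Fin n | j.val < r})) :
    vl ((Te (c + 1) n (emb (c + 1) h g) : EE (c + 1) n).1 v)
      ∈ Subgroup.closure (gen (c + 1) '' {j : Fin n | j.val < r}) := by
  rw [Te_val, vl_Tc]
  have h1 := emb_closureB (c := c + 1) h g
  exact Subgroup.mul_mem _ (Subgroup.mul_mem _ h1 hv) (Subgroup.inv_mem _ h1)

theorem sums_of_lcs (h : r ≤ n) (S : Finset (FreeGroup (Fin r)))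
    (hS : (⊤ : Subgroup (FreeGroup (Fin r))).lowerCentralSeries c ≤
      Subgroup.closure (S : Set (FreeGroup (Fin r))) ⊔
        (⊤ : Subgroup (FreeGroup (Fin r))).lowerCentralSeries (c + 1))
    (ζ : FreeGroup (Fin r)) (hζ : ζ ∈ (⊤ : Subgroup (FreeGroup (Fin r))).lowerCentralSeries c) :
    ∀ ρ : VV (c + 1) n, vl ρ ∈ Subgroup.closure (gen (c + 1) '' {j : Fin n | j.val < r}) →
      Sums c h S ((1 - Te (c + 1) n (emb (c + 1) h ζ) : EE (c + 1) n).1 ρ) := by
  classical
  have h0 := hS hζ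
  rw [← Subgroup.closure_eq ((⊤ : Subgroup (FreeGroup (Fin r))).lowerCentralSeries (c + 1)),
    ← Subgroup.closure_union] at h0
  have step : ∀ x ∈ Subgroup.closure ((S : Set (FreeGroup (Fin r))) ∪
      ((⊤ : Subgroup (FreeGroup (Fin r))).lowerCentralSeries (c + 1) : Set (FreeGroup (Fin r)))),
      ∀ ρ : VV (c + 1) n, vl ρ ∈ Subgroup.closure (gen (c + 1) '' {j : Fin n | j.val < r}) →
      Sums c h S ((1 - Te (c + 1) n (emb (c + 1) h x) : EE (c + 1) n).1 ρ) := by
    intro x hx
    induction hx using Subgroup.closure_induction with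
    | mem x hx =>
      intro ρ hρ
      rcases hx with hx | hx
      · refine ⟨fun s => if s = ⟨x, hx⟩ then ρ else 0, ?_, ?_⟩
        · intro s
          dsimp only
          split_ifs
          · exact hρ
          · rw [vl_zero]; exact Subgroup.one_mem _
        · rw [Finset.sum_eq_single (⟨x, hx⟩ : S)]
          · dsimp only
            rw [if_pos rfl]
          · intro b _ hb
            dsimp only
            rw [if_neg hb, map_zero]
          · intro hb
            exact absurd (Finset.mem_univ _) hb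
      · have h1 : Te (c + 1) n (emb (c + 1) h x) = 1 := Te_triv _ _ _ (emb_lcs h (c + 1) hx)
        rw [h1, sub_self]
        exact Sums.zero h S
    | one =>
      intro ρ _
      rw [map_one, map_one, sub_self]
      exact Sums.zero h S
    | mul x y _ _ hx hy =>
      intro ρ hρ
      have h1 : (1 - Te (c + 1) n (emb (c + 1) h (x * y)) : EE (c + 1) n)
          = (1 - Te (c + 1) n (emb (c + 1) h y)) + (1 - Te (c + 1) n (emb (c + 1) h x))
            * Te (c + 1) n (emb (c + 1) h y) := by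
        rw [map_mul, map_mul]
        noncomm_ring
      rw [h1]
      exact Sums.add h S (hy ρ hρ) (hx _ (Te_keep h y ρ hρ))
    | inv x _ hx =>
      intro ρ hρ
      have h1 : (1 - Te (c + 1) n (emb (c + 1) h x⁻¹) : EE (c + 1) n)
          = -((1 - Te (c + 1) n (emb (c + 1) h x)) * Te (c + 1) n (emb (c + 1) h x⁻¹)) := by
        have h2 : Te (c + 1) n (emb (c + 1) h x) * Te (c + 1) n (emb (c + 1) h x⁻¹) = 1 := by
          rw [← map_mul, ← map_mul, mul_inv_cancel, map_one, map_one]
        rw [sub_mul, h2]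
        noncomm_ring
      rw [h1]
      exact Sums.neg h S (hx _ (Te_keep h x⁻¹ ρ hρ))
  exact step ζ h0

theorem sums_of_comm (h : r ≤ n) (S : Finset (FreeGroup (Fin r)))
    (hS : (⊤ : Subgroup (FreeGroup (Fin r))).lowerCentralSeries c ≤
      Subgroup.closure (S : Set (FreeGroup (Fin r))) ⊔
        (⊤ : Subgroup (FreeGroup (Fin r))).lowerCentralSeries (c + 1))
    (u : FreeGroup (Fin r)) (hu : u ∈ ⁅(⊤ : Subgroup (FreeGroup (Fin r))).lowerCentralSeries (c + 1),
      (⊤ : Subgroup (FreeGroup (Fin r))).lowerCentralSeries c⁆) :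
    ∃ v : VV (c + 1) n, Sums c h S v ∧ vl v = emb (c + 1) h u := by
  rw [Subgroup.commutator_def] at hu
  induction hu using Subgroup.closure_induction with
  | mem x hx =>
    obtain ⟨ρ, hρ, ζ, hζ, rfl⟩ := hx
    refine ⟨_, sums_of_lcs h S hS ζ hζ (mkV (emb (c + 1) h ρ) (emb_lcs h (c + 1) hρ)) ?_, ?_⟩
    · rw [vl_mk]
      exact emb_closureB h ρ
    · rw [vl_delta, vl_mk, map_commutatorElement]
  | one => exact ⟨0, Sums.zero h S, by rw [vl_zero, map_one]⟩
  | mul x y _ _ hx hy =>
    obtain ⟨v, h1, h2⟩ := hx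
    obtain ⟨v', h1', h2'⟩ := hy
    exact ⟨v + v', Sums.add h S h1 h1', by rw [vl_add, h2, h2', map_mul]⟩
  | inv x _ hx =>
    obtain ⟨v, h1, h2⟩ := hx
    exact ⟨-v, Sums.neg h S h1, by rw [vl_neg, h2, map_inv]⟩

theorem vl_sum {ι : Type*} (l : List ι) (f : ι → VV c n) :
    vl ((l.map f).sum) = (l.map (fun i => vl (f i))).prod := by
  induction l with
  | nil => rfl
  | cons a l ih => rw [List.map_cons, List.sum_cons, List.map_cons, List.prod_cons, vl_add, ih]

/-- the uniform stable theorem on the coset -/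
theorem primitive_of_row (i : Fin r) (u : FreeGroup (Fin r))
    (hu : u ∈ ⁅(⊤ : Subgroup (FreeGroup (Fin r))).lowerCentralSeries (c + 1),
      (⊤ : Subgroup (FreeGroup (Fin r))).lowerCentralSeries c⁆)
    (h : r ≤ n) (hn : r + r ^ (c + 1) ≤ n)
    (hr : UnimodularRow (c + 1) (u * FreeGroup.of i)) :
    Primitive (emb (c + 1) h (u * FreeGroup.of i)) := by
  classical
  obtain ⟨S, hS1, hS2, hS3⟩ := lcs_gen r c
  obtain ⟨v, ⟨ρ, hρ, hv⟩, hvu⟩ := sums_of_comm h S hS3 u hu
  -- unused variables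
  have hcard : Fintype.card S ≤ Fintype.card (Fin (n - r)) := by
    rw [Fintype.card_coe, Fintype.card_fin]
    omega
  obtain ⟨φ⟩ := Function.Embedding.nonempty_of_card_le hcard
  set τ : S → Fin n := fun s => ⟨r + (φ s).val, by have := (φ s).2; omega⟩ with hτ
  have hτi : Function.Injective τ := by
    intro s t hst
    apply φ.injective
    apply Fin.ext
    have := congrArg Fin.val hst
    simp only [hτ] at this
    omega
  set L : List (FreeAN (c + 1) n × FreeAN (c + 1) n × Fin n) :=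
    (Finset.univ : Finset S).toList.map (fun s => (vl (ρ s), emb (c + 1) h s.1, τ s)) with hL
  have hcp : cprod L = emb (c + 1) h u := by
    rw [cprod, hL, List.map_map, ← hvu, hv, ← Finset.sum_map_toList, vl_sum]
    congr 1
    refine List.map_congr_left fun s _ => ?_
    rw [vl_delta]
    rfl
  have e1 : cprod L * gen (c + 1) (Fin.castLE h i) = emb (c + 1) h (u * FreeGroup.of i) := by
    rw [hcp, map_mul, emb_of]
  have key : AutEq (gen (c + 1) (Fin.castLE h i)) (cprod L * gen (c + 1) (Fin.castLE h i)) := by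
    apply chain {j : Fin n | j.val < r} L {j : Fin n | j.val < r}
    · exact le_refl _
    · exact Subgroup.subset_closure ⟨Fin.castLE h i, i.2, rfl⟩
    · intro p hp
      rw [hL] at hp
      obtain ⟨s, _, rfl⟩ := List.mem_map.1 hp
      refine ⟨vl_mem _, emb_central h (hS2 _ s.2), hρ s, emb_closureB h _, ?_⟩
      change ¬ (r + (φ s).val < r)
      omega
    · rw [hL, List.map_map]
      exact (Finset.nodup_toList _).map hτi
    · refine ⟨Dc (Pi.single (Fin.castLE h i) 1), Dc_crossed _, ?_⟩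
      rw [Dc_gen, Pi.single_eq_same]
    · rw [e1]
      exact um_of_row h _ hr
  obtain ⟨Φ, Ψ, h1, h2, -, h4⟩ := key
  rw [← e1, ← h4]
  exact primitive_of_aut Φ Ψ h1 h2 _

end MP15511a
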